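import Pool.Agent.helper41.CL.Spec

/-! # Row cl:AZ -/

set_option autoImplicit false

namespace Pool.Agent.helper41.CL

open Finset

theorem AZ (h1 : DP_stmt) (h2 : ST_stmt) : AZ_stmt := by
  intro α _ V E e
  induction e generalizing V E with
  | zero =>
    intro _ hE _
    have hE0 : E = ∅ := Finset.card_eq_zero.mp (Nat.le_zero.mp hE)
    subst hE0
    rw [pow_zero]
    apply Finset.card_pos.mpr
    refine ⟨∅, ?_⟩
    unfold cov
    rw [mem_filter, mem_powersetCard]
    refine ⟨⟨empty_subset _, card_empty⟩, ?_⟩
    intro f hf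
    exact absurd hf (notMem_empty f)
  | succ e ih =>
    intro hG hE hV
    obtain ⟨E', a, b, y, z, hab, hyz, ha, hb, hy, hz, hEE, hE', hc, hG'⟩ :=
      h2 α V E (e + 1) hG (by omega) hE hV
    have hcard : #(V \ {y, z}) + 2 = #V := by
      have h3 : ({y, z} : Finset α) ⊆ V := by
        intro x hx
        rw [mem_insert, mem_singleton] at hx
        rcases hx with h | h
        · rw [h]; exact hy
        · rw [h]; exact hz
      have h4 := card_sdiff_add_card_eq_card h3
      rw [card_pair hyz] at h4
      exact h4
    have h5 := ih (V \ {y, z}) E' hG' (by omega) (by omega)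
    have h6 := (h1 α V E E' a b y z hab hyz ha hb hy hz hEE hE').1 e
    rw [pow_succ]
    omega

end Pool.Agent.helper41.CL
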