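import Pool.Agent.helper47.CL.SpecD

/-! # Row MB of the project CL, part D (MP_d9d598_co) -/

set_option autoImplicit false

namespace Pool.Agent.helper41.CL

open Finset

private theorem MB_mem_ext {α : Type} [DecidableEq α] {V : Finset α} {E : Finset (Finset α)}
    {J : Finset α} {v : α} :
    v ∈ ext V E J ↔ v ∈ V ∧ v ∉ J ∧ ∀ e ∈ E, ¬ e ⊆ insert v J := by
  unfold ext
  exact Finset.mem_filter

private theorem MB_mem_ind {α : Type} [DecidableEq α] {V : Finset α} {E : Finset (Finset α)}
    {k : ℕ} {I : Finset α} :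
    I ∈ ind V E k ↔ (I ⊆ V ∧ #I = k) ∧ ∀ e ∈ E, ¬ e ⊆ I := by
  unfold ind
  rw [Finset.mem_filter, Finset.mem_powersetCard]

private theorem MB_insert {α : Type} [DecidableEq α] {V : Finset α} {E : Finset (Finset α)}
    {s : ℕ} {J : Finset α} {u : α} (hJ : J ∈ ind V E s) (hu : u ∈ ext V E J) :
    insert u J ∈ ind V E (s + 1) := by
  rw [MB_mem_ind] at hJ ⊢
  rw [MB_mem_ext] at hu
  refine ⟨⟨Finset.insert_subset hu.1 hJ.1.1, ?_⟩, hu.2.2⟩
  rw [Finset.card_insert_of_notMem hu.2.1, hJ.1.2]

theorem MB (h1 : MA_stmt) : MB_stmt := by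
  intro α _ V E s hG
  have hsq : ∀ J ∈ ind V E s, #(ext V E J) ^ 2 = #(ext V E J) + #(ext V E J).offDiag := by
    intro J _
    rw [Finset.offDiag_card, pow_two]
    have : #(ext V E J) ≤ #(ext V E J) * #(ext V E J) := Nat.le_mul_self _
    omega
  rw [Finset.sum_congr rfl hsq, Finset.sum_add_distrib, h1 α V E s]
  set T : Finset (Σ _ : Finset α, α × α) := (ind V E s).sigma fun J => (ext V E J).offDiag with hT
  have hTc : ∑ J ∈ ind V E s, #(ext V E J).offDiag = #T := by
    rw [hT, Finset.card_sigma]
  rw [hTc]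
  have hTm : ∀ t : (Σ _ : Finset α, α × α), t ∈ T ↔
      t.1 ∈ ind V E s ∧ t.2.1 ∈ ext V E t.1 ∧ t.2.2 ∈ ext V E t.1 ∧ t.2.1 ≠ t.2.2 := by
    intro t
    rw [hT, Finset.mem_sigma, Finset.mem_offDiag]
  classical
  set T2 := T.filter (fun t => t.2.2 ∈ ext V E (insert t.2.1 t.1)) with hT2
  set T3 := T.filter (fun t => ¬ t.2.2 ∈ ext V E (insert t.2.1 t.1)) with hT3
  have hsplit : #T = #T2 + #T3 := by
    rw [hT2, hT3]
    exact (Finset.card_filter_add_card_filter_not (s := T) _).symm
  -- second part
  set S2 : Finset (Σ _ : Finset α, α × α) :=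
    (ind V E (s + 1)).sigma fun S => S ×ˢ ext V E S with hS2
  have hS2c : #S2 = (s + 1) * ((s + 2) * #(ind V E (s + 2))) := by
    rw [hS2, Finset.card_sigma]
    have : ∀ S ∈ ind V E (s + 1), #(S ×ˢ ext V E S) = (s + 1) * #(ext V E S) := by
      intro S hS
      rw [Finset.card_product, (MB_mem_ind.1 hS).1.2]
    rw [Finset.sum_congr rfl this, ← Finset.mul_sum, h1 α V E (s + 1)]
  have hle2 : #T2 ≤ #S2 := by
    refine Finset.card_le_card_of_injOn
      (fun t => (⟨insert t.2.1 t.1, (t.2.1, t.2.2)⟩ : Σ _ : Finset α, α × α)) ?_ ?_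
    · intro t ht
      have ht' := Finset.mem_filter.1 (Finset.mem_coe.1 ht)
      obtain ⟨m1, m2, m3, m4⟩ := (hTm t).1 ht'.1
      refine Finset.mem_coe.2 (Finset.mem_sigma.2 ⟨MB_insert m1 m2, ?_⟩)
      exact Finset.mem_product.2 ⟨Finset.mem_insert_self _ _, ht'.2⟩
    · rintro ⟨J, u, v⟩ ht ⟨J', u', v'⟩ ht' h
      have k1 := ((hTm _).1 (Finset.mem_filter.1 (Finset.mem_coe.1 ht)).1)
      have k2 := ((hTm _).1 (Finset.mem_filter.1 (Finset.mem_coe.1 ht')).1)
      simp only [Sigma.mk.injEq, heq_eq_eq, Prod.mk.injEq] at h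
      obtain ⟨e1, e2, e3⟩ := h
      subst e2
      subst e3
      have n1 := (MB_mem_ext.1 k1.2.1).2.1
      have n2 := (MB_mem_ext.1 k2.2.1).2.1
      simp only at n1 n2
      have : J = J' := by
        rw [← Finset.erase_insert n1, e1, Finset.erase_insert n2]
      subst this
      rfl
  -- third part
  set S3 : Finset (Σ _ : Finset α, α) :=
    (ind V E (s + 1)).sigma fun S => (V \ S) \ ext V E S with hS3
  have hS3c : #S3 + (s + 2) * #(ind V E (s + 2)) + (s + 1) * #(ind V E (s + 1)) =
      #V * #(ind V E (s + 1)) := by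
    have e1 : ∀ S ∈ ind V E (s + 1), #((V \ S) \ ext V E S) + #(ext V E S) + (s + 1) = #V := by
      intro S hS
      have hS' := MB_mem_ind.1 hS
      have hsub : ext V E S ⊆ V \ S := by
        intro v hv
        have := MB_mem_ext.1 hv
        exact Finset.mem_sdiff.2 ⟨this.1, this.2.1⟩
      rw [Finset.card_sdiff_add_card_eq_card hsub]
      have := Finset.card_sdiff_add_card_eq_card hS'.1.1
      rw [hS'.1.2] at this
      exact this
    have e2 := Finset.sum_congr (rfl : ind V E (s + 1) = ind V E (s + 1)) e1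
    rw [Finset.sum_add_distrib, Finset.sum_add_distrib, h1 α V E (s + 1), Finset.sum_const,
      Finset.sum_const, smul_eq_mul, smul_eq_mul] at e2
    rw [hS3, Finset.card_sigma]
    linarith
  have hle3 : #T3 ≤ #S3 := by
    refine Finset.card_le_card_of_injOn
      (fun t => (⟨insert t.2.1 t.1, t.2.2⟩ : Σ _ : Finset α, α)) ?_ ?_
    · intro t ht
      have ht' := Finset.mem_filter.1 (Finset.mem_coe.1 ht)
      obtain ⟨m1, m2, m3, m4⟩ := (hTm t).1 ht'.1
      have m3' := MB_mem_ext.1 m3
      refine Finset.mem_coe.2 (Finset.mem_sigma.2 ⟨MB_insert m1 m2, ?_⟩)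
      refine Finset.mem_sdiff.2 ⟨Finset.mem_sdiff.2 ⟨m3'.1, ?_⟩, ht'.2⟩
      intro hmem
      rcases Finset.mem_insert.1 hmem with h | h
      · exact m4 h.symm
      · exact m3'.2.1 h
    · rintro ⟨J, u, v⟩ ht ⟨J', u', v'⟩ ht' h
      have f1 := Finset.mem_filter.1 (Finset.mem_coe.1 ht)
      have f2 := Finset.mem_filter.1 (Finset.mem_coe.1 ht')
      obtain ⟨k1, k2, k3, k4⟩ := (hTm _).1 f1.1
      obtain ⟨l1, l2, l3, l4⟩ := (hTm _).1 f2.1
      have f1' := f1.2
      simp only [Sigma.mk.injEq, heq_eq_eq] at h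
      simp only at k1 k2 k3 k4 l1 l2 l3 l4 f1'
      obtain ⟨e1, e3⟩ := h
      subst e3
      have n1 := (MB_mem_ext.1 k2)
      have n2 := (MB_mem_ext.1 l2)
      have p1 := (MB_mem_ext.1 k3)
      have p2 := (MB_mem_ext.1 l3)
      have huu : u = u' := by
        by_contra hne
        apply f1'
        rw [MB_mem_ext]
        refine ⟨p1.1, ?_, ?_⟩
        · intro hmem
          rcases Finset.mem_insert.1 hmem with h | h
          · exact k4 h.symm
          · exact p1.2.1 h
        · intro e he hsub
          have c1 : v ∈ e := by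
            by_contra hv
            exact n1.2.2 e he ((Finset.subset_insert_iff_of_notMem hv).1 hsub)
          have c2 : u ∈ e := by
            by_contra hv
            refine p1.2.2 e he fun z hz => ?_
            rcases Finset.mem_insert.1 (hsub hz) with h | h
            · exact Finset.mem_insert.2 (Or.inl h)
            · rcases Finset.mem_insert.1 h with h | h
              · exact absurd (h ▸ hz) hv
              · exact Finset.mem_insert.2 (Or.inr h)
          have c3 : u' ∈ e := by
            by_contra hv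
            refine p2.2.2 e he fun z hz => ?_
            rcases Finset.mem_insert.1 (hsub hz) with h | h
            · exact Finset.mem_insert.2 (Or.inl h)
            · rw [e1] at h
              rcases Finset.mem_insert.1 h with h | h
              · exact absurd (h ▸ hz) hv
              · exact Finset.mem_insert.2 (Or.inr h)
          have hsub3 : ({v, u, u'} : Finset α) ⊆ e := by
            intro z hz
            simp only [Finset.mem_insert, Finset.mem_singleton] at hz
            rcases hz with rfl | rfl | rfl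
            · exact c1
            · exact c2
            · exact c3
          have hc := Finset.card_le_card hsub3
          rw [(hG e he).2, Finset.card_eq_three.2 ⟨v, u, u', k4.symm, l4.symm, hne, rfl⟩] at hc
          omega
      subst huu
      have : J = J' := by
        rw [← Finset.erase_insert n1.2.1, e1, Finset.erase_insert n2.2.1]
      subst this
      rfl
  rw [hsplit]
  nlinarith [hle2, hle3, hS3c, hS2c]

end Pool.Agent.helper41.CL
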