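import Pool.Agent.helper47.CL.SpecD

/-! # Row RB of the project CL, part D (MP_d9d598_co) -/

set_option autoImplicit false

namespace Pool.Agent.helper41.CL

open Finset

theorem RB (h1 : BF_stmt) (h2 : ZR_stmt) (h3 : ZK_stmt) (h4 : ZL_stmt) (h5 : ZW_stmt)
    (h6 : ZI_stmt) (h8 : ZS_stmt) (h9 : SD_stmt) : RB_stmt := by
  intro N hA hB hC hC1 α _ V E q r hG hV hVN hr hE
  by_cases hE3 : #E + 3 ≤ q + 2 * r
  · have h := hC1 α V E q r hG hV hVN (by omega) hE3
    nlinarith [Nat.zero_le (3 ^ r * 2 ^ q), h]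
  have hE2 : #E + 2 = q + 2 * r := by omega
  rcases Nat.eq_zero_or_pos r with hr0 | hr1
  · subst hr0
    have h := (h2 α V E q hG (by omega)).2.1 (by omega)
    simpa using h
  rcases Nat.eq_zero_or_pos q with hq0 | hq1
  · subst hq0
    have hr1' : r = 1 := by omega
    subst hr1'
    have hE0 : E = ∅ := Finset.card_eq_zero.1 (by omega)
    have hi : #(ind V E (0 + 1)) = 1 := by
      unfold ind
      rw [Finset.filter_true_of_mem (by intro I _ e he; rw [hE0] at he; simp at he),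
        Finset.card_powersetCard, hV]
      simp
    rw [hi]
    norm_num
  obtain ⟨q', rfl⟩ : ∃ q', q = q' + 1 := ⟨q - 1, by omega⟩
  obtain ⟨r', rfl⟩ : ∃ r', r = r' + 1 := ⟨r - 1, by omega⟩
  -- leaf
  have L : ∀ E' : Finset (Finset α), Gr V E' → #E' = #E → (∃ x a, Lf E' x a) →
      2 * 3 ^ (r' + 1) * 2 ^ (q' + 1) ≤ 3 * 2 ^ (r' + 1) * #(ind V E' (q' + 1 + 1)) := by
    rintro E' hG' hc ⟨x, a, hl⟩
    obtain ⟨g1, g2, g3, g4, g5, g6, g7⟩ := h4 α V E' x a hG' hl
    have i1 := hC α _ _ q' (r' + 1) g1 (by omega) (by omega) (by omega) (by omega)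
    have i2 := hA α _ _ (q' + 1) r' g2 (by omega) (by omega) (by omega) (by omega)
    have i3 := g7 (q' + 1)
    set M1 := #(ind (V \ {x, a}) (av E' {x, a}) (q' + 1)) with hM1
    set M2 := #(ind (V.erase x) (av E' {x}) (q' + 1 + 1)) with hM2
    set M := #(ind V E' (q' + 1 + 1)) with hM
    have i4 : 2 ^ (r' + 1) * (M1 + M2) ≤ 2 ^ (r' + 1) * M := Nat.mul_le_mul_left _ i3
    rw [pow_succ 3 r', pow_succ 2 q', pow_succ 2 r'] at *
    set A := 3 ^ r' with hA'
    set B := 2 ^ q' with hB'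
    set C := 2 ^ r' with hC'
    nlinarith [i1, i2, i4]
  -- one edge component
  have K : (r' + 1 ≤ q' + 1) → (∃ x y, Kt E x y) →
      2 * 3 ^ (r' + 1) * 2 ^ (q' + 1) ≤ 3 * 2 ^ (r' + 1) * #(ind V E (q' + 1 + 1)) := by
    rintro hrq ⟨x, y, hk⟩
    obtain ⟨g1, g2, g3, g4⟩ := h3 α V E x y hG hk
    have i1 := hB α _ _ q' (r' + 1) g1 (by omega) (by omega) (by omega) (by omega)
    have i3 := g4 (q' + 1)
    set M1 := #(ind (V \ {x, y}) (av E {x, y}) (q' + 1)) with hM1
    set M := #(ind V E (q' + 1 + 1)) with hM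
    have i4 : 2 ^ (r' + 1) * (2 * M1) ≤ 2 ^ (r' + 1) * M :=
      Nat.mul_le_mul_left _ (le_trans (Nat.le_add_right _ _) i3)
    rw [pow_succ 2 q']
    nlinarith [i1, i4]
  rcases h8 α V E hG with hl | ⟨⟨y, hy, hyE⟩, a, ha⟩ | ⟨p, a, b, hT, ha, hb⟩ | hd | hF
  · exact L E hG rfl hl
  · by_cases hl : ∃ x a, Lf E x a
    · exact L E hG rfl hl
    · obtain ⟨E', hG', hc, hl', hi⟩ := h6 α V E a y hG hy hyE ha hl
      exact le_trans (L E' hG' hc hl') (Nat.mul_le_mul_left _ (hi _))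
  · obtain ⟨g1, g2, g3, g4, g5, g6, g7, g8⟩ := h5 α V E p a b hG hT
    have g6' := g6 (Or.inl ha)
    have i1 := hB α _ _ q' r' g1 (by omega) (by omega) (by omega) (by omega)
    have i2 := hB α _ _ (q' + 1) r' g2 (by omega) (by omega) (by omega) (by omega)
    have i3 := g8 (q' + 1)
    set M1 := #(ind (V \ {p, a, b}) (av E {p, a, b}) (q' + 1)) with hM1
    set M2 := #(ind (V.erase p) (av E {p}) (q' + 1 + 1)) with hM2
    set M := #(ind V E (q' + 1 + 1)) with hM
    have i4 : 2 ^ r' * (M1 + M2) ≤ 2 ^ r' * M := Nat.mul_le_mul_left _ i3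
    rw [pow_succ 3 r', pow_succ 2 q', pow_succ 2 r'] at *
    nlinarith [i1, i2, i4]
  · have hs := h9 α V E hG
    have hs2 : ∑ x ∈ V, #(inc E x) ≤ #V := by
      have := Finset.sum_le_card_nsmul V (fun x => #(inc E x)) 1 (fun x _ => hd x)
      simpa using this
    have hne : E.Nonempty := Finset.card_pos.1 (by omega)
    obtain ⟨e, he⟩ := hne
    obtain ⟨x, y, hxy, rfl⟩ := Finset.card_eq_two.1 (hG e he).2
    refine K (by omega) ⟨x, y, hxy, he, ?_⟩
    intro e' he' hm
    have huse : ∀ z, z ∈ e' → z ∈ ({x, y} : Finset α) → e' = {x, y} := by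
      intro z hz hz'
      exact Finset.card_le_one.1 (hd z) e' (by unfold inc; exact Finset.mem_filter.2 ⟨he', hz⟩)
        {x, y} (by unfold inc; exact Finset.mem_filter.2 ⟨he, hz'⟩)
    rcases hm with hm | hm
    · exact huse x hm (by simp)
    · exact huse y hm (by simp)
  · rcases Nat.lt_or_ge (q' + 1) (r' + 1) with hrq | hrq
    · have hrq' : r' = q' + 1 := by omega
      subst hrq'
      have h := h1 N hA hC α V E (q' + 1) hG (by omega) hVN (by omega) (by omega) hF
      have h' := Nat.mul_le_mul_left (2 ^ (q' + 1)) h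
      rw [pow_succ 3 (q' + 1), pow_succ 2 (q' + 1)]
      nlinarith [h']
    · by_cases hk : ∃ x y, Kt E x y
      · exact K hrq hk
      · exfalso
        have hall : ∀ x ∈ V, 3 ≤ #(inc E x) := by
          intro x hx
          rcases hF.2 x hx with h | ⟨y, h⟩
          · exact h
          · exact absurd ⟨x, y, h⟩ hk
        have hs := h9 α V E hG
        have hs2 := Finset.card_nsmul_le_sum V (fun x => #(inc E x)) 3 hall
        rw [smul_eq_mul] at hs2
        omega

end Pool.Agent.helper41.CL
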